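import Mathlib

/-!
Definitions for the arithmetic complexity `M(n)` of `n × n` matrix multiplication over a field `K`
(problem MP_f57c03_lc).
-/

set_option autoImplicit false

open MvPolynomial

namespace H563R2.MM

universe u

/-- The index set of the `2 n²` indeterminates: `Sum.inl (i, j)` stands for `a_ij` and
`Sum.inr (i, j)` stands for `b_ij`. -/
abbrev Idx (n : ℕ) : Type := (Fin n × Fin n) ⊕ (Fin n × Fin n)

/-- The field of rational functions over `K` in the `2 n²` indeterminates `a_ij`, `b_ij`. -/
abbrev RatFun (K : Type u) [Field K] (n : ℕ) : Type u :=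
  FractionRing (MvPolynomial (Idx n) K)

/-- The indeterminate `a_ij` as a rational function. -/
noncomputable def entryA (K : Type u) [Field K] (n : ℕ) (i j : Fin n) : RatFun K n :=
  algebraMap (MvPolynomial (Idx n) K) (RatFun K n) (X (Sum.inl (i, j)))

/-- The indeterminate `b_ij` as a rational function. -/
noncomputable def entryB (K : Type u) [Field K] (n : ℕ) (i j : Fin n) : RatFun K n :=
  algebraMap (MvPolynomial (Idx n) K) (RatFun K n) (X (Sum.inr (i, j)))

/-- The constant `c ∈ K` as a rational function. -/
noncomputable def const (K : Type u) [Field K] (n : ℕ) (c : K) : RatFun K n :=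
  algebraMap (MvPolynomial (Idx n) K) (RatFun K n) (C c)

/-- `x` may be used as an operand by step `t` of the sequence of results `g`: it is the result of
an earlier step, or one of the indeterminates `a_ij`, `b_ij`, or a constant from `K`. -/
def IsOperand {K : Type u} [Field K] {n m : ℕ} (g : Fin m → RatFun K n) (t : Fin m)
    (x : RatFun K n) : Prop :=
  (∃ s : Fin m, s < t ∧ x = g s) ∨ (∃ i j : Fin n, x = entryA K n i j) ∨
    (∃ i j : Fin n, x = entryB K n i j) ∨ (∃ c : K, x = const K n c)

/-- `g` is the sequence of results of an arithmetic straight-line program with `m` steps: every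
step applies one of `+`, `-`, `×`, `÷` to two operands (division only by a nonzero rational
function). -/
def IsProgram {K : Type u} [Field K] {n m : ℕ} (g : Fin m → RatFun K n) : Prop :=
  ∀ t : Fin m, ∃ x y : RatFun K n, IsOperand g t x ∧ IsOperand g t y ∧
    (g t = x + y ∨ g t = x - y ∨ g t = x * y ∨ (y ≠ 0 ∧ g t = x / y))

/-- Each of the `n²` entries `∑ j, a_ij b_jk` of the product occurs among the results `g`. -/
def ComputesProduct {K : Type u} [Field K] {n m : ℕ} (g : Fin m → RatFun K n) : Prop :=
  ∀ i k : Fin n, ∃ t : Fin m, g t = ∑ j : Fin n, entryA K n i j * entryB K n j k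

/-- The arithmetic complexity `M(n)` of `n × n` matrix multiplication over `K`: the least number
of steps of a straight-line program computing it. -/
noncomputable def M (K : Type u) [Field K] (n : ℕ) : ℕ :=
  sInf {m : ℕ | ∃ g : Fin m → RatFun K n, IsProgram g ∧ ComputesProduct g}

end H563R2.MM
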