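import Mathlib

/-!
Tensor rank of matrix multiplication, over arbitrary finite index types.
-/

set_option autoImplicit false

namespace H563R2.MM

universe u v w

/-- The matrix multiplication tensor with index type `ι` over `F` is a sum of rank one terms
indexed by `τ`. -/
def RankLe (F : Type u) [Field F] (ι : Type v) [DecidableEq ι] (τ : Type w) [Fintype τ] : Prop :=
  ∃ u v w : τ → ι → ι → F, ∀ i j j' k k' i' : ι,
    ∑ t, u t i j * v t j' k * w t k' i' = if j = j' ∧ k = k' ∧ i' = i then 1 else 0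

section
variable {F : Type u} [Field F]

theorem RankLe.congr {ι ι' : Type v} [DecidableEq ι] [DecidableEq ι'] {τ τ' : Type w} [Fintype τ]
    [Fintype τ'] (e : ι' ≃ ι) (f : τ' ≃ τ) (h : RankLe F ι τ) : RankLe F ι' τ' := by
  obtain ⟨u, v, w, h⟩ := h
  refine ⟨fun t i j => u (f t) (e i) (e j), fun t i j => v (f t) (e i) (e j),
    fun t i j => w (f t) (e i) (e j), fun i j j' k k' i' => ?_⟩
  have := h (e i) (e j) (e j') (e k) (e k') (e i')
  rw [← Equiv.sum_comp f] at this
  rw [this]
  simp only [EmbeddingLike.apply_eq_iff_eq]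

/-- Kronecker powers -/
theorem RankLe.pow {ι : Type v} [DecidableEq ι] [Fintype ι] {τ : Type w} [Fintype τ]
    [DecidableEq τ] (k : ℕ)
    (h : RankLe F ι τ) : RankLe F (Fin k → ι) (Fin k → τ) := by
  obtain ⟨u, v, w, h⟩ := h
  refine ⟨fun t i j => ∏ s, u (t s) (i s) (j s), fun t i j => ∏ s, v (t s) (i s) (j s),
    fun t i j => ∏ s, w (t s) (i s) (j s), fun i j j' k k' i' => ?_⟩
  simp only [← Finset.prod_mul_distrib]
  have h1 := (Finset.prod_univ_sum (fun _ : Fin _ => (Finset.univ : Finset τ))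
    (fun s t => u t (i s) (j s) * v t (j' s) (k s) * w t (k' s) (i' s)))
  rw [Fintype.piFinset_univ] at h1
  rw [← h1]
  simp only [h]
  by_cases hc : j = j' ∧ k = k' ∧ i' = i
  · obtain ⟨rfl, rfl, rfl⟩ := hc
    simp
  · rw [if_neg hc]
    have : ∃ s, ¬ (j s = j' s ∧ k s = k' s ∧ i' s = i s) := by
      by_contra hcon
      push Not at hcon
      exact hc ⟨funext fun s => (hcon s).1, funext fun s => (hcon s).2.1,
        funext fun s => (hcon s).2.2⟩
    obtain ⟨s, hs⟩ := this
    exact Finset.prod_eq_zero (Finset.mem_univ s) (if_neg hs)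

/-- Rank does not increase under a ring hom -/
theorem RankLe.map_of_subring {L : Type*} [Field L] {ι : Type v} [DecidableEq ι] {τ : Type w}
    [Fintype τ] {S : Type*} [CommRing S] (i1 : S →+* F) (hi : Function.Injective i1)
    (i2 : S →+* L)
    (u v w : τ → ι → ι → F)
    (hu : ∀ t i j, ∃ s, i1 s = u t i j) (hv : ∀ t i j, ∃ s, i1 s = v t i j)
    (hw : ∀ t i j, ∃ s, i1 s = w t i j)
    (h : ∀ i j j' k k' i' : ι,
    ∑ t, u t i j * v t j' k * w t k' i' = if j = j' ∧ k = k' ∧ i' = i then 1 else 0) :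
    RankLe L ι τ := by
  choose u' hu' using hu
  choose v' hv' using hv
  choose w' hw' using hw
  refine ⟨fun t i j => i2 (u' t i j), fun t i j => i2 (v' t i j), fun t i j => i2 (w' t i j),
    fun i j j' k k' i' => ?_⟩
  have h1 : ∑ t, u' t i j * v' t j' k * w' t k' i' =
      if j = j' ∧ k = k' ∧ i' = i then 1 else 0 := by
    apply hi
    have := h i j j' k k' i'
    simp only [map_sum, map_mul, hu', hv', hw', this]
    split_ifs <;> simp
  have h2 := congrArg i2 h1
  simp only [map_sum, map_mul] at h2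
  rw [h2]
  split_ifs <;> simp

end

/-- Descent to a finite extension: if the matrix multiplication tensor has a decomposition over
some extension field of `K`, then it has one of the same size over a finite extension of `K`. -/
theorem RankLe.exists_finite_ext {K : Type u} [Field K] {E : Type v} [Field E] [Algebra K E]
    {ι : Type w} [DecidableEq ι] [Finite ι] {τ : Type w} [Fintype τ] (h : RankLe E ι τ) :
    ∃ (L : Type v) (_ : Field L) (_ : Algebra K L), Module.Finite K L ∧ RankLe L ι τ := by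
  classical
  obtain ⟨u, v, w, h⟩ := h
  let T : Set E := Set.range (fun p : τ × ι × ι => u p.1 p.2.1 p.2.2) ∪
    Set.range (fun p : τ × ι × ι => v p.1 p.2.1 p.2.2) ∪
    Set.range (fun p : τ × ι × ι => w p.1 p.2.1 p.2.2)
  have hT : T.Finite := ((Set.finite_range _).union (Set.finite_range _)).union
    (Set.finite_range _)
  let S := Algebra.adjoin K T
  have hS : Algebra.FiniteType K S :=
    (Subalgebra.fg_iff_finiteType _).1 ⟨hT.toFinset, by rw [Set.Finite.coe_toFinset]⟩
  obtain ⟨m, hm⟩ := Ideal.exists_maximal S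
  let _ : Field (S ⧸ m) := Ideal.Quotient.field m
  have hfin : Algebra.FiniteType K (S ⧸ m) :=
    Algebra.FiniteType.of_surjective (Ideal.Quotient.mkₐ K m) (Ideal.Quotient.mkₐ_surjective K m)
  refine ⟨S ⧸ m, inferInstance, inferInstance, ?_, ?_⟩
  · exact finite_of_finite_type_of_isJacobsonRing K (S ⧸ m)
  · refine RankLe.map_of_subring (S := S) (S.subtype) Subtype.coe_injective
      (Ideal.Quotient.mk m) u v w ?_ ?_ ?_ h
    · intro t i j
      exact ⟨⟨u t i j, Algebra.subset_adjoin (Or.inl (Or.inl ⟨(t, i, j), rfl⟩))⟩, rfl⟩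
    · intro t i j
      exact ⟨⟨v t i j, Algebra.subset_adjoin (Or.inl (Or.inr ⟨(t, i, j), rfl⟩))⟩, rfl⟩
    · intro t i j
      exact ⟨⟨w t i j, Algebra.subset_adjoin (Or.inr ⟨(t, i, j), rfl⟩)⟩, rfl⟩

/-- Descent from a finite extension to the base field. -/
theorem RankLe.descend {K : Type u} [Field K] {L : Type v} [Field L] [Algebra K L]
    [Module.Finite K L]
    {ι : Type w} [DecidableEq ι] {τ : Type w} [Fintype τ] (h : RankLe L ι τ) :
    RankLe K ι (τ × (Fin (Module.finrank K L) × Fin (Module.finrank K L) ×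
      Fin (Module.finrank K L))) := by
  classical
  obtain ⟨u, v, w, h⟩ := h
  let b := Module.finBasis K L
  obtain ⟨φ, hφ⟩ : ∃ φ : L →ₗ[K] K, φ 1 = 1 := by
    obtain ⟨φ, hφ⟩ := (Algebra.linearMap K L).exists_leftInverse_of_injective
      (LinearMap.ker_eq_bot.2 (algebraMap K L).injective)
    refine ⟨φ, ?_⟩
    have := congrArg (fun f : K →ₗ[K] K => f 1) hφ
    simpa using this
  refine ⟨fun t i j => b.repr (u t.1 i j) t.2.1, fun t i j => b.repr (v t.1 i j) t.2.2.1,
    fun t i j => b.repr (w t.1 i j) t.2.2.2 * φ (b t.2.1 * b t.2.2.1 * b t.2.2.2),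
    fun i j j' k k' i' => ?_⟩
  have h1 := congrArg φ (h i j j' k k' i')
  have h2 : φ (if j = j' ∧ k = k' ∧ i' = i then 1 else 0) =
      if j = j' ∧ k = k' ∧ i' = i then 1 else 0 := by
    split_ifs
    · exact hφ
    · simp
  rw [h2] at h1
  rw [← h1, map_sum, Fintype.sum_prod_type]
  refine Finset.sum_congr rfl fun t _ => ?_
  have key : ∀ x y z : L, φ (x * y * z) = ∑ p, ∑ q, ∑ r, b.repr x p * b.repr y q *
      (b.repr z r * φ (b p * b q * b r)) := by
    intro x y z
    conv_lhs => rw [← b.sum_repr x, ← b.sum_repr y, ← b.sum_repr z]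
    simp only [Finset.sum_mul, Finset.mul_sum, map_sum, smul_mul_assoc,
      mul_smul_comm, map_smul, smul_eq_mul]
    symm
    refine Eq.trans (Finset.sum_congr rfl fun p _ => Finset.sum_comm) ?_
    refine Eq.trans Finset.sum_comm ?_
    refine Eq.trans (Finset.sum_congr rfl fun p _ => Finset.sum_comm) ?_
    refine Finset.sum_congr rfl fun p _ => Finset.sum_congr rfl fun q _ =>
      Finset.sum_congr rfl fun r _ => ?_
    ring
  rw [key]
  simp only [Fintype.sum_prod_type]

end H563R2.MM
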