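import Mathlib
import Pool.Agent.H563R2.MMDefs
import Pool.Agent.H563R2.Deriv
import Pool.Agent.H563R2.Rank

/-!
Lower bounds: every straight-line program computing the matrix product has at least
`R - n²` additive steps and at least `R / 2` multiplicative steps.
-/

set_option autoImplicit false

open MvPolynomial

namespace H563R2.MM

universe u v w

/-- abstract derivation on a field -/
structure IsDer {E : Type u} [Field E] (d : E → E) : Prop where
  add : ∀ x y, d (x + y) = d x + d y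
  mul : ∀ x y, d (x * y) = x * d y + y * d x

namespace IsDer
variable {E : Type u} [Field E] {d : E → E} (hd : IsDer d)
include hd

theorem zero : d 0 = 0 := by
  have := hd.add 0 0
  simpa using this

theorem neg (x : E) : d (-x) = - d x := by
  have := hd.add x (-x)
  rw [add_neg_cancel, hd.zero] at this
  exact (neg_eq_of_add_eq_zero_right this.symm).symm

theorem sub (x y : E) : d (x - y) = d x - d y := by
  rw [sub_eq_add_neg, hd.add, hd.neg, sub_eq_add_neg]

theorem sum {ι : Type*} (s : Finset ι) (f : ι → E) : d (∑ i ∈ s, f i) = ∑ i ∈ s, d (f i) := by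
  classical
  induction s using Finset.induction_on with
  | empty => simp [hd.zero]
  | insert a s ha ih => rw [Finset.sum_insert ha, Finset.sum_insert ha, hd.add, ih]

end IsDer

section
variable {E : Type u} [Field E] {α : Type v} {β : Type w} (dA : α → E → E) (dB : β → E → E)

/-- mixed second derivative -/
def HH (x : E) (a : α) (b : β) : E := dA a (dB b x)

/-- mixed second logarithmic derivative -/
def DD (x : E) (a : α) (b : β) : E := dA a (dB b x) / x - dA a x * dB b x / x ^ 2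

/-- rank one -/
def r1 (μ : α → E) (ν : β → E) (a : α) (b : β) : E := μ a * ν b

variable {dA dB} (hA : ∀ a, IsDer (dA a)) (hB : ∀ b, IsDer (dB b))
include hA hB

theorem HH_add (x y : E) : HH dA dB (x + y) = HH dA dB x + HH dA dB y := by
  funext a b
  simp [HH, (hA a).add, (hB b).add]

theorem HH_sub (x y : E) : HH dA dB (x - y) = HH dA dB x - HH dA dB y := by
  funext a b
  simp [HH, (hA a).sub, (hB b).sub]

theorem HH_mul (x y : E) : HH dA dB (x * y) = x • HH dA dB y + y • HH dA dB x +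
    r1 (fun a => dA a x) (fun b => dB b y) + r1 (fun a => dA a y) (fun b => dB b x) := by
  funext a b
  simp only [HH, (hA a).add, (hB b).mul, (hA a).mul, r1, Pi.add_apply, Pi.smul_apply,
    smul_eq_mul]
  ring

omit hA hB in
theorem DD_zero : DD dA dB (0 : E) = 0 := by
  funext a b
  simp [DD]

theorem DD_mul (x y : E) (hx : x ≠ 0) (hy : y ≠ 0) :
    DD dA dB (x * y) = DD dA dB x + DD dA dB y := by
  funext a b
  simp only [DD, (hA a).add, (hB b).mul, (hA a).mul, Pi.add_apply]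
  field_simp
  ring

theorem DD_add (x y : E) (hx : x ≠ 0) (hy : y ≠ 0) (hxy : x + y ≠ 0) :
    DD dA dB (x + y) = (x / (x + y)) • DD dA dB x + (y / (x + y)) • DD dA dB y +
      (x * y / (x + y) ^ 2) • r1 (fun a => dA a x / x - dA a y / y)
        (fun b => dB b x / x - dB b y / y) := by
  funext a b
  simp only [DD, (hA a).add, (hB b).add, Pi.add_apply, Pi.smul_apply, r1, smul_eq_mul]
  field_simp
  ring

end

theorem steps_induction {E : Type u} {V : Type v} {m : ℕ} (Φ : E → V) (S : Set V)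
    (g : Fin m → E) (Op : Fin m → E → Prop)
    (hop : ∀ t x, Op t x → (∃ s < t, x = g s) ∨ Φ x ∈ S)
    (hstep : ∀ t, ∃ x y, Op t x ∧ Op t y ∧ (Φ x ∈ S → Φ y ∈ S → Φ (g t) ∈ S)) :
    ∀ t, Φ (g t) ∈ S := by
  intro t
  induction t using WellFoundedLT.induction with
  | ind t ih =>
    obtain ⟨x, y, hx, hy, h⟩ := hstep t
    apply h
    · rcases hop t x hx with ⟨s, hs, rfl⟩ | h
      · exact ih s hs
      · exact h
    · rcases hop t y hy with ⟨s, hs, rfl⟩ | h
      · exact ih s hs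
      · exact h

section
variable {E : Type u} [Field E] {α : Type v} {β : Type w} {dA : α → E → E} {dB : β → E → E}
variable (hA : ∀ a, IsDer (dA a)) (hB : ∀ b, IsDer (dB b))
include hA hB

theorem DD_neg (x : E) : DD dA dB (-x) = DD dA dB x := by
  funext a b
  simp only [DD, (hB b).neg, (hA a).neg]
  rw [neg_div_neg_eq, neg_mul_neg, neg_sq]

/-- one additive step costs one rank one form -/
theorem DD_add_mem (x y : E) : ∃ μ : α → E, ∃ ν : β → E, ∀ S : Submodule E (α → β → E),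
    r1 μ ν ∈ S → DD dA dB x ∈ S → DD dA dB y ∈ S → DD dA dB (x + y) ∈ S := by
  refine ⟨fun a => dA a x / x - dA a y / y, fun b => dB b x / x - dB b y / y,
    fun S h hx hy => ?_⟩
  by_cases hx0 : x = 0
  · simpa [hx0] using hy
  by_cases hy0 : y = 0
  · simpa [hy0] using hx
  by_cases hxy : x + y = 0
  · rw [hxy, DD_zero]
    exact S.zero_mem
  rw [DD_add hA hB x y hx0 hy0 hxy]
  exact S.add_mem (S.add_mem (S.smul_mem _ hx) (S.smul_mem _ hy)) (S.smul_mem _ h)

theorem DD_sub_mem (x y : E) : ∃ μ : α → E, ∃ ν : β → E, ∀ S : Submodule E (α → β → E),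
    r1 μ ν ∈ S → DD dA dB x ∈ S → DD dA dB y ∈ S → DD dA dB (x - y) ∈ S := by
  obtain ⟨μ, ν, h⟩ := DD_add_mem hA hB x (-y)
  refine ⟨μ, ν, fun S h1 h2 h3 => ?_⟩
  rw [sub_eq_add_neg]
  apply h S h1 h2
  rwa [DD_neg hA hB]

theorem DD_mul_mem (x y : E) (S : Submodule E (α → β → E)) :
    DD dA dB x ∈ S → DD dA dB y ∈ S → DD dA dB (x * y) ∈ S := by
  intro hx hy
  by_cases hx0 : x = 0
  · rw [hx0, zero_mul, DD_zero]
    exact S.zero_mem
  by_cases hy0 : y = 0
  · rw [hy0, mul_zero, DD_zero]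
    exact S.zero_mem
  rw [DD_mul hA hB x y hx0 hy0]
  exact S.add_mem hx hy

theorem DD_div_mem (x y : E) (hy0 : y ≠ 0) (S : Submodule E (α → β → E)) :
    DD dA dB x ∈ S → DD dA dB y ∈ S → DD dA dB (x / y) ∈ S := by
  intro hx hy
  by_cases hx0 : x = 0
  · rw [hx0, zero_div, DD_zero]
    exact S.zero_mem
  have h : DD dA dB x = DD dA dB (x / y) + DD dA dB y := by
    rw [← DD_mul hA hB (x / y) y (div_ne_zero hx0 hy0) hy0, div_mul_cancel₀ x hy0]
  rw [eq_sub_of_add_eq h.symm]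
  exact S.sub_mem hx hy

theorem HH_mul_mem (x y : E) : ∃ μ₁ : α → E, ∃ ν₁ : β → E, ∃ μ₂ : α → E, ∃ ν₂ : β → E,
    ∀ S : Submodule E (α → β → E), r1 μ₁ ν₁ ∈ S → r1 μ₂ ν₂ ∈ S →
      HH dA dB x ∈ S → HH dA dB y ∈ S → HH dA dB (x * y) ∈ S := by
  refine ⟨fun a => dA a x, fun b => dB b y, fun a => dA a y, fun b => dB b x,
    fun S h1 h2 h3 h4 => ?_⟩
  rw [HH_mul hA hB]
  exact S.add_mem (S.add_mem (S.add_mem (S.smul_mem _ h4) (S.smul_mem _ h3)) h1) h2

theorem HH_div_mem (x y : E) (hy0 : y ≠ 0) :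
    ∃ μ₁ : α → E, ∃ ν₁ : β → E, ∃ μ₂ : α → E, ∃ ν₂ : β → E,
    ∀ S : Submodule E (α → β → E), r1 μ₁ ν₁ ∈ S → r1 μ₂ ν₂ ∈ S →
      HH dA dB x ∈ S → HH dA dB y ∈ S → HH dA dB (x / y) ∈ S := by
  refine ⟨fun a => dA a (x / y), fun b => dB b y, fun a => dA a y, fun b => dB b (x / y),
    fun S h1 h2 h3 h4 => ?_⟩
  have h5 := HH_mul hA hB (x / y) y
  rw [div_mul_cancel₀ x hy0] at h5
  have h6 : y • HH dA dB (x / y) = HH dA dB x - (x / y) • HH dA dB y -
      r1 (fun a => dA a (x / y)) (fun b => dB b y) -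
      r1 (fun a => dA a y) (fun b => dB b (x / y)) := by
    rw [h5]
    abel
  have h7 : y • HH dA dB (x / y) ∈ S := by
    rw [h6]
    exact S.sub_mem (S.sub_mem (S.sub_mem h3 (S.smul_mem _ h4)) h1) h2
  exact (S.smul_mem_iff hy0).1 h7

end

/-- The outputs of matrix multiplication, seen through mixed second derivatives, give a rank
decomposition as soon as they lie in the span of a family of rank one forms. -/
theorem rankLe_of_span {E : Type u} [Field E] {ι : Type v} [DecidableEq ι] {τ : Type w}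
    [Fintype τ]
    (μ ν : τ → ι × ι → E) (out : ι → ι → (ι × ι → ι × ι → E))
    (hout : ∀ i k, out i k ∈ Submodule.span E (Set.range fun t => r1 (μ t) (ν t)))
    (hval : ∀ i k i' j j' k', out i k (i', j) (j', k') =
      if j = j' ∧ k' = k ∧ i = i' then 1 else 0) :
    RankLe E ι τ := by
  have h1 : ∀ i k, ∃ c : τ → E, ∑ t, c t • r1 (μ t) (ν t) = out i k := by
    intro i k
    have := hout i k
    rwa [Submodule.mem_span_range_iff_exists_fun] at this
  choose c hc using h1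
  refine ⟨fun t i j => μ t (i, j), fun t i j => ν t (i, j), fun t k i => c i k t,
    fun i j j' k k' i' => ?_⟩
  rw [← hval i' k' i j j' k, ← hc]
  simp only [Finset.sum_apply, Pi.smul_apply, r1, smul_eq_mul]
  refine Finset.sum_congr rfl fun t _ => ?_
  ring

section
variable {E : Type u} [Field E] {m : ℕ} (g : Fin m → E) (Op : Fin m → E → Prop)

/-- additive steps -/
def AddStep (t : Fin m) : Prop := ∃ x y, Op t x ∧ Op t y ∧ (g t = x + y ∨ g t = x - y)

variable {g Op}
variable {ι : Type v} [DecidableEq ι] [Fintype ι]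
  {dA dB : ι × ι → E → E}
  (hA : ∀ a, IsDer (dA a)) (hB : ∀ b, IsDer (dB b))
  (hg : ∀ t, ∃ x y, Op t x ∧ Op t y ∧
    (g t = x + y ∨ g t = x - y ∨ g t = x * y ∨ (y ≠ 0 ∧ g t = x / y)))
  (hop : ∀ t x, Op t x → (∃ s < t, x = g s) ∨ (DD dA dB x = 0 ∧ HH dA dB x = 0))
  (hout : ∀ i k : ι, ∃ t, ∀ i' j j' k', HH dA dB (g t) (i', j) (j', k') =
    if j = j' ∧ k' = k ∧ i = i' then 1 else 0)

include hA hB hg hop hout in
theorem rankLe_additive [Fintype {t // AddStep g Op t}] :
    RankLe E ι ({t // AddStep g Op t} ⊕ (ι × ι)) := by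
  classical
  have h1 : ∀ s : {t // AddStep g Op t}, ∃ μ ν : ι × ι → E, ∃ x y, Op s x ∧ Op s y ∧
      ∀ S : Submodule E (ι × ι → ι × ι → E),
      r1 μ ν ∈ S → DD dA dB x ∈ S → DD dA dB y ∈ S → DD dA dB (g s) ∈ S := by
    rintro ⟨s, x, y, hx, hy, h | h⟩
    · obtain ⟨μ, ν, h2⟩ := DD_add_mem hA hB x y
      exact ⟨μ, ν, x, y, hx, hy, by rwa [h]⟩
    · obtain ⟨μ, ν, h2⟩ := DD_sub_mem hA hB x y
      exact ⟨μ, ν, x, y, hx, hy, by rwa [h]⟩
  choose μ ν X Y hX hY hXY using h1
  choose T hT using hout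
  let μ' : ({t // AddStep g Op t} ⊕ (ι × ι)) → ι × ι → E :=
    Sum.elim μ (fun o a => dA a (g (T o.1 o.2)))
  let ν' : ({t // AddStep g Op t} ⊕ (ι × ι)) → ι × ι → E :=
    Sum.elim ν (fun o b => dB b (g (T o.1 o.2)))
  let S := Submodule.span E (Set.range fun t => r1 (μ' t) (ν' t))
  have hS : ∀ t, DD dA dB (g t) ∈ S := by
    refine steps_induction (DD dA dB) S g Op ?_ ?_
    · intro t x hx
      rcases hop t x hx with h | h
      · exact Or.inl h
      · right
        rw [h.1]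
        exact S.zero_mem
    · intro t
      by_cases ht : AddStep g Op t
      · refine ⟨X ⟨t, ht⟩, Y ⟨t, ht⟩, hX ⟨t, ht⟩, hY ⟨t, ht⟩, ?_⟩
        apply hXY ⟨t, ht⟩ S
        exact Submodule.subset_span ⟨Sum.inl ⟨t, ht⟩, rfl⟩
      · obtain ⟨x, y, hx, hy, h | h | h | ⟨hy0, h⟩⟩ := hg t
        · exact absurd ⟨x, y, hx, hy, Or.inl h⟩ ht
        · exact absurd ⟨x, y, hx, hy, Or.inr h⟩ ht
        · exact ⟨x, y, hx, hy, by rw [h]; exact DD_mul_mem hA hB x y S⟩
        · exact ⟨x, y, hx, hy, by rw [h]; exact DD_div_mem hA hB x y hy0 S⟩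
  refine rankLe_of_span μ' ν' (fun i k => HH dA dB (g (T i k))) ?_ ?_
  · intro i k
    have h2 : HH dA dB (g (T i k)) = g (T i k) • DD dA dB (g (T i k)) +
        (1 / g (T i k)) • r1 (fun a => dA a (g (T i k))) (fun b => dB b (g (T i k))) := by
      by_cases h0 : g (T i k) = 0
      · rw [h0]
        funext a b
        simp [HH, (hB b).zero, (hA a).zero]
      · funext a b
        simp only [HH, DD, Pi.add_apply, Pi.smul_apply, smul_eq_mul, r1]
        field_simp
        ring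
    rw [h2]
    refine S.add_mem (S.smul_mem _ (hS _)) (S.smul_mem _ ?_)
    exact Submodule.subset_span ⟨Sum.inr (i, k), rfl⟩
  · intro i k i' j j' k'
    exact hT i k i' j j' k'

include hA hB hg hop hout in
theorem rankLe_multiplicative [Fintype {t // ¬ AddStep g Op t}] :
    RankLe E ι ({t // ¬ AddStep g Op t} ⊕ {t // ¬ AddStep g Op t}) := by
  classical
  have h1 : ∀ s : {t // ¬ AddStep g Op t}, ∃ μ₁ ν₁ μ₂ ν₂ : ι × ι → E, ∃ x y, Op s x ∧ Op s y ∧
      ∀ S : Submodule E (ι × ι → ι × ι → E),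
      r1 μ₁ ν₁ ∈ S → r1 μ₂ ν₂ ∈ S →
      HH dA dB x ∈ S → HH dA dB y ∈ S → HH dA dB (g s) ∈ S := by
    rintro ⟨s, hs⟩
    obtain ⟨x, y, hx, hy, h | h | h | ⟨hy0, h⟩⟩ := hg s
    · exact absurd ⟨x, y, hx, hy, Or.inl h⟩ hs
    · exact absurd ⟨x, y, hx, hy, Or.inr h⟩ hs
    · obtain ⟨μ₁, ν₁, μ₂, ν₂, h1⟩ := HH_mul_mem hA hB x y
      exact ⟨μ₁, ν₁, μ₂, ν₂, x, y, hx, hy, by rwa [h]⟩
    · obtain ⟨μ₁, ν₁, μ₂, ν₂, h1⟩ := HH_div_mem hA hB x y hy0
      exact ⟨μ₁, ν₁, μ₂, ν₂, x, y, hx, hy, by rwa [h]⟩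
  choose μ₁ ν₁ μ₂ ν₂ X Y hX hY hXY using h1
  choose T hT using hout
  let μ' : ({t // ¬ AddStep g Op t} ⊕ {t // ¬ AddStep g Op t}) → ι × ι → E :=
    Sum.elim μ₁ μ₂
  let ν' : ({t // ¬ AddStep g Op t} ⊕ {t // ¬ AddStep g Op t}) → ι × ι → E :=
    Sum.elim ν₁ ν₂
  let S := Submodule.span E (Set.range fun t => r1 (μ' t) (ν' t))
  have hS : ∀ t, HH dA dB (g t) ∈ S := by
    refine steps_induction (HH dA dB) S g Op ?_ ?_
    · intro t x hx
      rcases hop t x hx with h | h
      · exact Or.inl h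
      · right
        rw [h.2]
        exact S.zero_mem
    · intro t
      by_cases ht : AddStep g Op t
      · obtain ⟨x, y, hx, hy, h | h⟩ := ht
        · refine ⟨x, y, hx, hy, fun h1 h2 => ?_⟩
          rw [h, HH_add hA hB]
          exact S.add_mem h1 h2
        · refine ⟨x, y, hx, hy, fun h1 h2 => ?_⟩
          rw [h, HH_sub hA hB]
          exact S.sub_mem h1 h2
      · refine ⟨X ⟨t, ht⟩, Y ⟨t, ht⟩, hX ⟨t, ht⟩, hY ⟨t, ht⟩, ?_⟩
        apply hXY ⟨t, ht⟩ S
        · exact Submodule.subset_span ⟨Sum.inl ⟨t, ht⟩, rfl⟩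
        · exact Submodule.subset_span ⟨Sum.inr ⟨t, ht⟩, rfl⟩
  refine rankLe_of_span μ' ν' (fun i k => HH dA dB (g (T i k))) ?_ ?_
  · intro i k
    exact hS (T i k)
  · intro i k i' j j' k'
    exact hT i k i' j j' k'

include hA hB hg hop hout in
/-- The rank is at most `(2m + 2n²)/3`. -/
theorem exists_rankLe : ∃ r : ℕ, 3 * r ≤ 2 * m + 2 * (Fintype.card ι) ^ 2 ∧
    RankLe E ι (Fin r) := by
  classical
  have h1 := rankLe_additive hA hB hg hop hout
  have h2 := rankLe_multiplicative hA hB hg hop hout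
  set a := Fintype.card {t // AddStep g Op t} with ha
  set b := Fintype.card {t // ¬ AddStep g Op t} with hb
  have hab : a + b = m := by
    have := Fintype.card_subtype_compl (fun t => AddStep g Op t)
    have h3 := Fintype.card_subtype_le (fun t => AddStep g Op t)
    rw [Fintype.card_fin] at this h3
    omega
  by_cases hc : a + Fintype.card ι ^ 2 ≤ 2 * b
  · refine ⟨a + Fintype.card ι ^ 2, by omega, ?_⟩
    have e : Fin (a + Fintype.card ι ^ 2) ≃ ({t // AddStep g Op t} ⊕ (ι × ι)) :=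
      (Fintype.equivFinOfCardEq (by simp [ha, sq])).symm
    obtain ⟨u, v, w, h⟩ := h1
    exact ⟨fun t => u (e t), fun t => v (e t), fun t => w (e t), fun i j j' k k' i' => by
      rw [← h i j j' k k' i', ← Equiv.sum_comp e]⟩
  · refine ⟨2 * b, by omega, ?_⟩
    have e : Fin (2 * b) ≃ ({t // ¬ AddStep g Op t} ⊕ {t // ¬ AddStep g Op t}) :=
      (Fintype.equivFinOfCardEq (by rw [Fintype.card_sum]; omega)).symm
    obtain ⟨u, v, w, h⟩ := h2
    exact ⟨fun t => u (e t), fun t => v (e t), fun t => w (e t), fun i j j' k k' i' => by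
      rw [← h i j j' k k' i', ← Equiv.sum_comp e]⟩

end

end H563R2.MM
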