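import Mathlib
import Pool.Agent.H563R2.LowerBound

/-!
Instantiation of the abstract lower bound to the field of rational functions.
-/

set_option autoImplicit false

open MvPolynomial

namespace H563R2.MM

universe u

section
variable (K : Type u) [Field K] (n : ℕ)

/-- derivative with respect to `a_p` -/
noncomputable def dA (p : Fin n × Fin n) (x : RatFun K n) : RatFun K n :=
  Deriv.dd (pderiv (R := K) (Sum.inl p : Idx n)) x

/-- derivative with respect to `b_p` -/
noncomputable def dB (p : Fin n × Fin n) (x : RatFun K n) : RatFun K n :=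
  Deriv.dd (pderiv (R := K) (Sum.inr p : Idx n)) x

theorem isDer_dA (p : Fin n × Fin n) : IsDer (dA K n p) :=
  ⟨fun x y => Deriv.dd_add _ x y, fun x y => Deriv.dd_mul _ x y⟩

theorem isDer_dB (p : Fin n × Fin n) : IsDer (dB K n p) :=
  ⟨fun x y => Deriv.dd_add _ x y, fun x y => Deriv.dd_mul _ x y⟩

theorem dA_algebraMap (p : Fin n × Fin n) (f : MvPolynomial (Idx n) K) :
    dA K n p (algebraMap _ _ f) = algebraMap _ _ (pderiv (Sum.inl p : Idx n) f) :=
  Deriv.dd_algebraMap _ f

theorem dB_algebraMap (p : Fin n × Fin n) (f : MvPolynomial (Idx n) K) :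
    dB K n p (algebraMap _ _ f) = algebraMap _ _ (pderiv (Sum.inr p : Idx n) f) :=
  Deriv.dd_algebraMap _ f

theorem dA_const (p : Fin n × Fin n) (c : K) : dA K n p (const K n c) = 0 := by
  rw [const, dA_algebraMap, pderiv_C, map_zero]

theorem dB_const (p : Fin n × Fin n) (c : K) : dB K n p (const K n c) = 0 := by
  rw [const, dB_algebraMap, pderiv_C, map_zero]

theorem dA_entryB (p : Fin n × Fin n) (i j : Fin n) : dA K n p (entryB K n i j) = 0 := by
  rw [entryB, dA_algebraMap, pderiv_X_of_ne (by simp), map_zero]

theorem dB_entryA (p : Fin n × Fin n) (i j : Fin n) : dB K n p (entryA K n i j) = 0 := by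
  rw [entryA, dB_algebraMap, pderiv_X_of_ne (by simp), map_zero]

theorem dA_entryA (p : Fin n × Fin n) (i j : Fin n) :
    dA K n p (entryA K n i j) = const K n (if p = (i, j) then 1 else 0) := by
  rw [entryA, dA_algebraMap]
  split_ifs with h
  · subst h
    rw [pderiv_X_self, const, C_1]
  · rw [pderiv_X_of_ne, const, C_0]
    intro h1
    exact h (Sum.inl.inj h1).symm

theorem dB_entryB (p : Fin n × Fin n) (i j : Fin n) :
    dB K n p (entryB K n i j) = const K n (if p = (i, j) then 1 else 0) := by
  rw [entryB, dB_algebraMap]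
  split_ifs with h
  · subst h
    rw [pderiv_X_self, const, C_1]
  · rw [pderiv_X_of_ne, const, C_0]
    intro h1
    exact h (Sum.inr.inj h1).symm

theorem HH_out (i k i' j1 j2 k' : Fin n) :
    HH (dA K n) (dB K n) (∑ j, entryA K n i j * entryB K n j k) (i', j1) (j2, k') =
      if j1 = j2 ∧ k' = k ∧ i = i' then 1 else 0 := by
  have h0 : ∀ b : Bool, (if b then (const K n 1) else const K n 0) = if b then 1 else 0 := by
    intro b
    cases b <;> simp [const]
  rw [HH, (isDer_dB K n _).sum, (isDer_dA K n _).sum]
  have h1 : ∀ j, dA K n (i', j1) (dB K n (j2, k') (entryA K n i j * entryB K n j k)) =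
      if j1 = j ∧ j2 = j ∧ k' = k ∧ i = i' then 1 else 0 := by
    intro j
    rw [(isDer_dB K n _).mul, (isDer_dA K n _).add, (isDer_dA K n _).mul, (isDer_dA K n _).mul,
      dB_entryA, dB_entryB, dA_const, dA_entryA, (isDer_dA K n _).zero]
    by_cases h : j1 = j ∧ j2 = j ∧ k' = k ∧ i = i'
    · obtain ⟨rfl, rfl, rfl, rfl⟩ := h
      simp [const]
    · rw [if_neg h]
      by_cases h2 : (j2, k') = (j, k)
      · rw [if_pos h2, if_neg]
        · simp [const]
        · intro h3
          simp only [Prod.mk.injEq] at h2 h3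
          exact h ⟨h3.2, h2.1, h2.2, h3.1.symm⟩
      · rw [if_neg h2]
        simp [const]
  rw [Finset.sum_congr rfl fun j _ => h1 j]
  by_cases h : j1 = j2 ∧ k' = k ∧ i = i'
  · obtain ⟨rfl, rfl, rfl⟩ := h
    simp
  · rw [if_neg h]
    refine Finset.sum_eq_zero fun j _ => if_neg ?_
    rintro ⟨rfl, rfl, rfl, rfl⟩
    exact h ⟨rfl, rfl, rfl⟩

end

variable {K : Type u} [Field K] {n m : ℕ}

/-- A straight-line program with `m` steps for the `n × n` matrix product yields a decomposition
of the matrix multiplication tensor, over the field of rational functions, into at most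
`(2 m + 2 n²) / 3` rank one terms. -/
theorem exists_rank_of_program {g : Fin m → RatFun K n} (hg : IsProgram g)
    (hc : ComputesProduct g) :
    ∃ r : ℕ, 3 * r ≤ 2 * m + 2 * n ^ 2 ∧ RankLe (RatFun K n) (Fin n) (Fin r) := by
  have h := exists_rankLe (E := RatFun K n) (g := g) (Op := IsOperand g) (ι := Fin n)
    (dA := dA K n) (dB := dB K n) (isDer_dA K n) (isDer_dB K n) hg ?_ ?_
  · simpa using h
  · intro t x hx
    rcases hx with h | ⟨i, j, rfl⟩ | ⟨i, j, rfl⟩ | ⟨c, rfl⟩
    · exact Or.inl h
    · right
      constructor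
      · funext a b
        simp [DD, dB_entryA, (isDer_dA K n _).zero]
      · funext a b
        simp [HH, dB_entryA, (isDer_dA K n _).zero]
    · right
      constructor
      · funext a b
        simp [DD, dB_entryB, dA_entryB, dA_const]
      · funext a b
        simp [HH, dB_entryB, dA_const]
    · right
      constructor
      · funext a b
        simp [DD, dB_const, (isDer_dA K n _).zero]
      · funext a b
        simp [HH, dB_const, (isDer_dA K n _).zero]
  · intro i k
    obtain ⟨t, ht⟩ := hc i k
    refine ⟨t, fun i' j j' k' => ?_⟩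
    rw [ht, HH_out]

theorem sq_le_of_computes {g : Fin m → RatFun K n} (hc : ComputesProduct g) : n ^ 2 ≤ m := by
  choose T hT using hc
  have hinj : Function.Injective (fun p : Fin n × Fin n => T p.1 p.2) := by
    rintro ⟨i, k⟩ ⟨i', k'⟩ h
    simp only at h
    have h1 := hT i k
    rw [h, hT i' k'] at h1
    have h2 := congrArg (fun x => HH (dA K n) (dB K n) x (i, i) (i, k)) h1
    simp only [HH_out] at h2
    by_contra hne
    rw [if_neg, if_pos] at h2
    · exact zero_ne_one h2
    · simp
    · rintro ⟨-, rfl, rfl⟩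
      exact hne rfl
  have := Fintype.card_le_of_injective _ hinj
  simpa [sq] using this

end H563R2.MM
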