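import Mathlib
import Pool.Agent.H563R2.MMDefs
import Pool.Agent.H563R2.Rank

/-!
Upper bounds: the recursive block algorithm attached to a rank decomposition.
-/

set_option autoImplicit false

namespace H563R2.MM

universe u v w

section
variable {K : Type u} [Field K] {F : Type v} [Field F] [Algebra K F]

/-- what is available after the results `l` (newest first) with inputs `X` -/
def Av (K : Type u) [Field K] {F : Type v} [Field F] [Algebra K F] (X : Set F) (l : List F) :
    Set F :=
  {x | x ∈ l ∨ x ∈ X ∨ ∃ c : K, x = algebraMap K F c}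

/-- straight-line programs as lists, newest result first -/
inductive IsProg (K : Type u) [Field K] {F : Type v} [Field F] [Algebra K F] (X : Set F) :
    List F → Prop
  | nil : IsProg K X []
  | cons {l : List F} (z x y : F) (hl : IsProg K X l) (hx : x ∈ Av K X l) (hy : y ∈ Av K X l)
      (h : z = x + y ∨ z = x - y ∨ z = x * y ∨ (y ≠ 0 ∧ z = x / y)) : IsProg K X (z :: l)

/-- the elements of `Y` can be computed from `X` in at most `m` steps -/
def Gen (K : Type u) [Field K] {F : Type v} [Field F] [Algebra K F] (X : Set F) (m : ℕ)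
    (Y : Set F) : Prop :=
  ∃ l : List F, IsProg K X l ∧ l.length ≤ m ∧ Y ⊆ Av K X l

theorem Av_subset {X X' : Set F} {l l' : List F} (hX : X ⊆ Av K X' l')
    (hl : ∀ x ∈ l, x ∈ Av K X' l') : Av K X l ⊆ Av K X' l' := by
  rintro x (hx | hx | ⟨c, rfl⟩)
  · exact hl x hx
  · exact hX hx
  · exact Or.inr (Or.inr ⟨c, rfl⟩)

theorem IsProg.append {X X' : Set F} {l l' : List F} (h : IsProg K X l)
    (h' : IsProg K X' l') (hX : X' ⊆ Av K X l) : IsProg K X (l' ++ l) := by
  induction h' with
  | nil => exact h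
  | cons z x y hl hx hy hz ih =>
    rename_i l''
    have hsub : Av K X' l'' ⊆ Av K X (l'' ++ l) := by
      apply Av_subset
      · intro a ha
        rcases hX ha with h1 | h1 | h1
        · exact Or.inl (List.mem_append_right _ h1)
        · exact Or.inr (Or.inl h1)
        · exact Or.inr (Or.inr h1)
      · intro a ha
        exact Or.inl (List.mem_append_left _ ha)
    exact IsProg.cons z x y ih (hsub hx) (hsub hy) hz

theorem Gen.comp {X X' Y : Set F} {m m' : ℕ} (h : Gen K X m X') (h' : Gen K X' m' Y) :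
    Gen K X (m + m') Y := by
  obtain ⟨l, hl, hlm, hX'⟩ := h
  obtain ⟨l', hl', hlm', hY⟩ := h'
  refine ⟨l' ++ l, hl.append hl' hX', by rw [List.length_append]; omega, ?_⟩
  refine hY.trans (Av_subset ?_ ?_)
  · intro a ha
    rcases hX' ha with h1 | h1 | h1
    · exact Or.inl (List.mem_append_right _ h1)
    · exact Or.inr (Or.inl h1)
    · exact Or.inr (Or.inr h1)
  · intro a ha
    exact Or.inl (List.mem_append_left _ ha)

theorem Gen.mono {X X' Y Y' : Set F} {m m' : ℕ} (h : Gen K X m Y) (hX : X ⊆ X') (hm : m ≤ m')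
    (hY : Y' ⊆ Y) : Gen K X' m' Y' := by
  have h0 : Gen K X' 0 X := ⟨[], IsProg.nil, le_rfl, fun x hx => Or.inr (Or.inl (hX hx))⟩
  obtain ⟨l, hl, hlm, h1⟩ := h0.comp h
  exact ⟨l, hl, by omega, hY.trans h1⟩

theorem Gen.of_subset {X Y : Set F} (h : Y ⊆ Av K X []) : Gen K X 0 Y :=
  ⟨[], IsProg.nil, le_rfl, h⟩

theorem Gen.keep {X Y : Set F} {m : ℕ} (h : Gen K X m Y) : Gen K X m (X ∪ Y) := by
  obtain ⟨l, hl, hlm, h1⟩ := h
  exact ⟨l, hl, hlm, Set.union_subset (fun x hx => Or.inr (Or.inl hx)) h1⟩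

theorem Gen.union {X Y Z : Set F} {m m' : ℕ} (h : Gen K X m Y) (h' : Gen K X m' Z) :
    Gen K X (m + m') (Y ∪ Z) := by
  have h1 := h.keep
  have h2 := (h'.mono (Set.subset_union_left (t := Y)) le_rfl subset_rfl).keep
  refine (h1.comp h2).mono subset_rfl le_rfl ?_
  rintro x (hx | hx)
  · exact Or.inl (Or.inr hx)
  · exact Or.inr hx

theorem Gen.step {X : Set F} (x y z : F) (hx : x ∈ Av K X []) (hy : y ∈ Av K X [])
    (h : z = x + y ∨ z = x - y ∨ z = x * y ∨ (y ≠ 0 ∧ z = x / y)) : Gen K X 1 {z} :=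
  ⟨[z], IsProg.cons z x y IsProg.nil hx hy h, le_rfl, by
    rintro a rfl
    exact Or.inl (by simp)⟩

theorem Gen.biUnion {ι : Type*} {X : Set F} (s : Finset ι) (Y : ι → Set F) (m : ℕ)
    (h : ∀ i ∈ s, Gen K X m (Y i)) : Gen K X (s.card * m) (⋃ i ∈ s, Y i) := by
  classical
  induction s using Finset.induction_on with
  | empty =>
    refine (Gen.of_subset (X := X) (Y := ∅) (Set.empty_subset _)).mono subset_rfl (Nat.zero_le _) ?_
    intro x hx
    simp at hx
  | insert a s ha ih =>
    rw [Finset.card_insert_of_notMem ha, add_mul, one_mul, add_comm]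
    refine ((h a (by simp)).union (ih fun i hi => h i (by simp [hi]))).mono subset_rfl le_rfl ?_
    rw [Finset.set_biUnion_insert]

theorem Gen.iUnion {ι : Type*} [Fintype ι] {X : Set F} (Y : ι → Set F) (m : ℕ)
    (h : ∀ i, Gen K X m (Y i)) : Gen K X (Fintype.card ι * m) (⋃ i, Y i) := by
  have := Gen.biUnion (Finset.univ : Finset ι) Y m (fun i _ => h i)
  simpa using this

theorem Gen.range {ι : Type*} [Fintype ι] {X : Set F} (y : ι → F) (m : ℕ)
    (h : ∀ i, Gen K X m {y i}) : Gen K X (Fintype.card ι * m) (Set.range y) := by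
  refine (Gen.iUnion _ m h).mono subset_rfl le_rfl ?_
  rintro _ ⟨i, rfl⟩
  exact Set.mem_iUnion.2 ⟨i, rfl⟩

/-- linear combinations -/
theorem Gen.lincomb {ι : Type*} {X : Set F} (s : Finset ι) (c : ι → K) (x : ι → F)
    (hx : ∀ i ∈ s, x i ∈ X) :
    Gen K X (2 * s.card) {∑ i ∈ s, algebraMap K F (c i) * x i} := by
  classical
  induction s using Finset.induction_on with
  | empty =>
    refine Gen.of_subset ?_
    rintro a rfl
    exact Or.inr (Or.inr ⟨0, by simp⟩)
  | insert a s ha ih =>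
    rw [Finset.card_insert_of_notMem ha, Finset.sum_insert ha]
    have h1 : Gen K X 1 {algebraMap K F (c a) * x a} :=
      Gen.step (algebraMap K F (c a)) (x a) _ (Or.inr (Or.inr ⟨_, rfl⟩))
        (Or.inr (Or.inl (hx a (by simp)))) (Or.inr (Or.inr (Or.inl rfl)))
    have h2 := h1.union (ih fun i hi => hx i (by simp [hi]))
    have h3 := h2.comp (Gen.step (X := {algebraMap K F (c a) * x a} ∪
      {∑ i ∈ s, algebraMap K F (c i) * x i}) (algebraMap K F (c a) * x a)
      (∑ i ∈ s, algebraMap K F (c i) * x i) _ (Or.inr (Or.inl (Or.inl rfl)))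
      (Or.inr (Or.inl (Or.inr rfl))) (Or.inl rfl))
    exact h3.mono subset_rfl (by omega) subset_rfl

variable (K F) in
/-- cost of multiplying matrices with entries in a given set -/
def MMC (ι : Type w) [Fintype ι] (c : ℕ) : Prop :=
  ∀ (X : Set F) (P Q : ι → ι → F), (∀ i j, P i j ∈ X) → (∀ i j, Q i j ∈ X) →
    Gen K X c (Set.range fun p : ι × ι => ∑ j, P p.1 j * Q j p.2)

theorem MMC.unique (ι : Type w) [Fintype ι] [Unique ι] : MMC K F ι 1 := by
  intro X P Q hP hQ
  refine (Gen.step (P default default) (Q default default) _ (Or.inr (Or.inl (hP _ _)))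
    (Or.inr (Or.inl (hQ _ _))) (Or.inr (Or.inr (Or.inl rfl)))).mono subset_rfl le_rfl ?_
  rintro _ ⟨⟨i, k⟩, rfl⟩
  simp [Unique.eq_default]

theorem MMC.mono {ι : Type w} [Fintype ι] {c c' : ℕ} (h : MMC K F ι c) (hc : c ≤ c') :
    MMC K F ι c' :=
  fun X P Q hP hQ => (h X P Q hP hQ).mono subset_rfl hc subset_rfl

/-- padding by zeros -/
theorem MMC.of_injective {ι : Type w} [Fintype ι] {κ : Type*} [Fintype κ] {c : ℕ}
    (f : ι → κ) (hf : Function.Injective f) (h : MMC K F κ c) : MMC K F ι c := by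
  classical
  intro X P Q hP hQ
  let P' : κ → κ → F := fun a b => Function.extend f (fun i => Function.extend f (P i) 0 b) 0 a
  let Q' : κ → κ → F := fun a b => Function.extend f (fun i => Function.extend f (Q i) 0 b) 0 a
  have hP' : ∀ i j, P' (f i) (f j) = P i j := by
    intro i j
    simp only [P', hf.extend_apply]
  have hQ' : ∀ i j, Q' (f i) (f j) = Q i j := by
    intro i j
    simp only [Q', hf.extend_apply]
  have hext : ∀ (g : ι → F) (Z : Set F), (∀ i, g i ∈ Z) → (0 : F) ∈ Z →
      ∀ a, Function.extend f g 0 a ∈ Z := by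
    intro g Z hg h0 a
    by_cases ha : ∃ i, f i = a
    · obtain ⟨i, rfl⟩ := ha
      rw [hf.extend_apply]
      exact hg i
    · rw [Function.extend_apply' _ _ _ ha]
      exact h0
  have h0X : (0 : F) ∈ X ∪ {0} := Or.inr rfl
  have h1 := h (X ∪ {0}) P' Q'
    (fun a b => hext _ _ (fun i => hext _ _ (fun j => Or.inl (hP i j)) h0X b) h0X a)
    (fun a b => hext _ _ (fun i => hext _ _ (fun j => Or.inl (hQ i j)) h0X b) h0X a)
  have h2 : Gen K X 0 (X ∪ {0}) := Gen.of_subset (by
    rintro x (hx | rfl)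
    · exact Or.inr (Or.inl hx)
    · exact Or.inr (Or.inr ⟨0, by simp⟩))
  refine (h2.comp h1).mono subset_rfl (by omega) ?_
  rintro _ ⟨⟨i, k⟩, rfl⟩
  refine ⟨(f i, f k), ?_⟩
  simp only
  symm
  apply Fintype.sum_of_injective f hf
  · intro b hb
    have : P' (f i) b = 0 := by
      simp only [P', hf.extend_apply]
      rw [Function.extend_apply']
      · rfl
      · rintro ⟨j, hj⟩
        exact hb ⟨j, hj⟩
    rw [this, zero_mul]
  · intro j
    rw [hP', hQ']

/-- the recursion -/
theorem MMC.block {ι : Type w} [Fintype ι] {κ : Type*} [Fintype κ] [DecidableEq κ] {τ : Type*}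
    [Fintype τ] {c : ℕ} (h : MMC K F ι c) (hr : RankLe K κ τ) :
    MMC K F (κ × ι) (Fintype.card τ * c + 6 * Fintype.card τ * (Fintype.card κ) ^ 2 *
      (Fintype.card ι) ^ 2) := by
  obtain ⟨u, v, w, hr⟩ := hr
  intro X P Q hP hQ
  -- linear combinations of the blocks of `P`
  let P1 : τ × ι × ι → F := fun q =>
    ∑ ab : κ × κ, algebraMap K F (u q.1 ab.1 ab.2) * P (ab.1, q.2.1) (ab.2, q.2.2)
  let Q1 : τ × ι × ι → F := fun q =>
    ∑ ab : κ × κ, algebraMap K F (v q.1 ab.1 ab.2) * Q (ab.1, q.2.1) (ab.2, q.2.2)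
  have hP1 : Gen K X (Fintype.card (τ × ι × ι) * (2 * Fintype.card (κ × κ))) (Set.range P1) := by
    refine Gen.range P1 _ fun q => ?_
    exact Gen.lincomb (Finset.univ : Finset (κ × κ)) _ _ (fun _ _ => hP _ _)
  have hQ1 : Gen K X (Fintype.card (τ × ι × ι) * (2 * Fintype.card (κ × κ))) (Set.range Q1) := by
    refine Gen.range Q1 _ fun q => ?_
    exact Gen.lincomb (Finset.univ : Finset (κ × κ)) _ _ (fun _ _ => hQ _ _)
  have h1 := hP1.union hQ1
  -- the products
  let W : τ × ι × ι → F := fun q => ∑ j, P1 (q.1, q.2.1, j) * Q1 (q.1, j, q.2.2)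
  have hW : Gen K (Set.range P1 ∪ Set.range Q1) (Fintype.card τ * c) (Set.range W) := by
    refine (Gen.iUnion (fun t : τ => Set.range fun p : ι × ι =>
      ∑ j, P1 (t, p.1, j) * Q1 (t, j, p.2)) c fun t => ?_).mono subset_rfl le_rfl ?_
    · exact h _ (fun i j => P1 (t, i, j)) (fun i j => Q1 (t, i, j))
        (fun i j => Or.inl ⟨_, rfl⟩) (fun i j => Or.inr ⟨_, rfl⟩)
    · rintro _ ⟨⟨t, i, k⟩, rfl⟩
      exact Set.mem_iUnion.2 ⟨t, (i, k), rfl⟩
  -- the outputs
  let Z : (κ × ι) × (κ × ι) → F := fun p =>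
    ∑ t, algebraMap K F (w t p.2.1 p.1.1) * W (t, p.1.2, p.2.2)
  have hZ : Gen K (Set.range W) (Fintype.card ((κ × ι) × (κ × ι)) * (2 * Fintype.card τ))
      (Set.range Z) := by
    refine Gen.range Z _ fun p => ?_
    exact Gen.lincomb (Finset.univ : Finset τ) _ _ (fun _ _ => ⟨_, rfl⟩)
  have h2 := (h1.comp hW).comp hZ
  refine h2.mono subset_rfl ?_ ?_
  · simp only [Fintype.card_prod]
    nlinarith [Nat.zero_le 1]
  · rintro _ ⟨⟨⟨a, i⟩, ⟨b, k⟩⟩, rfl⟩
    refine ⟨((a, i), (b, k)), ?_⟩
    have key : ∀ j : ι, ∑ t, algebraMap K F (w t b a) * (P1 (t, i, j) * Q1 (t, j, k)) =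
        ∑ y : κ, P (a, i) (y, j) * Q (y, j) (b, k) := by
      intro j
      have e1 : ∀ t, algebraMap K F (w t b a) * (P1 (t, i, j) * Q1 (t, j, k)) =
          ∑ p : κ × κ, ∑ q : κ × κ, P (p.1, i) (p.2, j) * Q (q.1, j) (q.2, k) *
            algebraMap K F (u t p.1 p.2 * v t q.1 q.2 * w t b a) := by
        intro t
        simp only [P1, Q1]
        rw [Finset.sum_mul_sum, Finset.mul_sum]
        refine Finset.sum_congr rfl fun p _ => ?_
        rw [Finset.mul_sum]
        refine Finset.sum_congr rfl fun q _ => ?_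
        simp only [map_mul]
        ring
      rw [Finset.sum_congr rfl fun t _ => e1 t, Finset.sum_comm]
      have e2 : ∀ p : κ × κ, ∑ t, ∑ q : κ × κ, P (p.1, i) (p.2, j) * Q (q.1, j) (q.2, k) *
            algebraMap K F (u t p.1 p.2 * v t q.1 q.2 * w t b a) =
          if a = p.1 then P (p.1, i) (p.2, j) * Q (p.2, j) (b, k) else 0 := by
        intro p
        rw [Finset.sum_comm]
        have e3 : ∀ q : κ × κ, ∑ t, P (p.1, i) (p.2, j) * Q (q.1, j) (q.2, k) *
            algebraMap K F (u t p.1 p.2 * v t q.1 q.2 * w t b a) =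
            if q = (p.2, b) then (if a = p.1 then P (p.1, i) (p.2, j) * Q (p.2, j) (b, k) else 0)
            else 0 := by
          intro q
          rw [← Finset.mul_sum, ← map_sum, hr]
          by_cases hq : q = (p.2, b)
          · rw [if_pos hq, hq]
            by_cases ha : a = p.1
            · rw [if_pos ha, if_pos ⟨rfl, rfl, ha⟩, map_one, mul_one]
            · rw [if_neg ha, if_neg, map_zero, mul_zero]
              rintro ⟨-, -, h⟩
              exact ha h
          · rw [if_neg hq, if_neg, map_zero, mul_zero]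
            rintro ⟨h1, h2, -⟩
            exact hq (Prod.ext h1.symm h2)
        rw [Finset.sum_congr rfl fun q _ => e3 q, Finset.sum_ite_eq' Finset.univ (p.2, b)]
        simp
      rw [Finset.sum_congr rfl fun p _ => e2 p, Fintype.sum_prod_type]
      rw [Finset.sum_eq_single a]
      · simp
      · intro x _ hx
        refine Finset.sum_eq_zero fun y _ => if_neg ?_
        exact fun h => hx h.symm
      · intro h
        exact absurd (Finset.mem_univ a) h
    show ∑ t, algebraMap K F (w t b a) * (∑ j, P1 (t, i, j) * Q1 (t, j, k)) =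
      ∑ q : κ × ι, P (a, i) q * Q q (b, k)
    rw [Fintype.sum_prod_type_right]
    simp only [Finset.mul_sum]
    rw [Finset.sum_comm]
    exact Finset.sum_congr rfl fun j _ => key j

end

end H563R2.MM
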