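import Mathlib
import Pool.Agent.H563R2.LowerConcrete
import Pool.Agent.H563R2.Upper

/-!
The main theorem on the regularity of the arithmetic complexity of matrix multiplication.
-/

set_option autoImplicit false

open MvPolynomial Filter

namespace H563R2.MM

universe u v

section
variable {K : Type u} [Field K]

theorem IsProg.get {F : Type v} [Field F] [Algebra K F] {X : Set F} {l : List F}
    (h : IsProg K X l) : ∀ (k : ℕ) (hk : k < l.length), ∃ x y, x ∈ Av K X (l.drop (k + 1)) ∧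
      y ∈ Av K X (l.drop (k + 1)) ∧
      (l[k] = x + y ∨ l[k] = x - y ∨ l[k] = x * y ∨ (y ≠ 0 ∧ l[k] = x / y)) := by
  induction h with
  | nil => intro k hk; simp at hk
  | cons z x y hl hx hy hz ih =>
    intro k hk
    cases k with
    | zero => exact ⟨x, y, by simpa using hx, by simpa using hy, by simpa using hz⟩
    | succ k =>
      have hk' : k < _ := Nat.lt_of_succ_lt_succ hk
      obtain ⟨x', y', h1, h2, h3⟩ := ih k hk'
      exact ⟨x', y', by simpa using h1, by simpa using h2, by simpa using h3⟩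

variable (K) in
/-- the inputs -/
def inputs (n : ℕ) : Set (RatFun K n) :=
  {x | (∃ i j, x = entryA K n i j) ∨ (∃ i j, x = entryB K n i j)}

theorem algebraMap_eq_const (n : ℕ) (c : K) : algebraMap K (RatFun K n) c = const K n c := by
  rw [const, IsScalarTower.algebraMap_apply K (MvPolynomial (Idx n) K) (RatFun K n)]
  rfl

theorem isProgram_of_isProg {n : ℕ} {l : List (RatFun K n)} (h : IsProg K (inputs K n) l) :
    IsProgram (fun t : Fin l.length => l[l.length - 1 - t.1]'(by omega)) := by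
  have hop : ∀ (t : Fin l.length) (x : RatFun K n),
      x ∈ Av K (inputs K n) (l.drop (l.length - 1 - t.1 + 1)) →
      IsOperand (fun t : Fin l.length => l[l.length - 1 - t.1]'(by omega)) t x := by
    rintro t x (hx | (hx | hx) | ⟨c, hx⟩)
    · left
      obtain ⟨j, hj, rfl⟩ := List.getElem_of_mem hx
      rw [List.length_drop] at hj
      refine ⟨⟨l.length - 1 - (l.length - 1 - t.1 + 1 + j), by omega⟩, ?_, ?_⟩
      · show l.length - 1 - (l.length - 1 - t.1 + 1 + j) < t.1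
        omega
      · rw [List.getElem_drop]
        congr 1
        show _ = l.length - 1 - (l.length - 1 - (l.length - 1 - t.1 + 1 + j))
        omega
    · exact Or.inr (Or.inl hx)
    · exact Or.inr (Or.inr (Or.inl hx))
    · refine Or.inr (Or.inr (Or.inr ⟨c, ?_⟩))
      rw [hx, algebraMap_eq_const]
  intro t
  obtain ⟨x, y, hx, hy, hxy⟩ := h.get (l.length - 1 - t.1) (by omega)
  exact ⟨x, y, hop t x hx, hop t y hy, hxy⟩

theorem exists_program_of_MMC {n c : ℕ} (h : MMC K (RatFun K n) (Fin n) c) :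
    ∃ m ≤ c, ∃ g : Fin m → RatFun K n, IsProgram g ∧ ComputesProduct g := by
  obtain ⟨l, hl, hlc, hout⟩ := h (inputs K n) (entryA K n) (entryB K n)
    (fun i j => Or.inl ⟨i, j, rfl⟩) (fun i j => Or.inr ⟨i, j, rfl⟩)
  refine ⟨l.length, hlc, _, isProgram_of_isProg hl, ?_⟩
  intro i k
  have h1 : (1 : RatFun K n) ≠ 0 := one_ne_zero
  have h2 := HH_out K n i k i i i k
  simp only [and_self, if_true] at h2
  have hmem := hout ⟨(i, k), rfl⟩
  simp only at hmem
  rcases hmem with hmem | (⟨i', j', hmem⟩ | ⟨i', j', hmem⟩) | ⟨c, hmem⟩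
  · obtain ⟨j, hj, hj'⟩ := List.getElem_of_mem hmem
    refine ⟨⟨l.length - 1 - j, by omega⟩, ?_⟩
    rw [← hj']
    simp only
    congr 1
    omega
  · rw [hmem, HH, dB_entryA, (isDer_dA K n _).zero] at h2
    exact absurd h2.symm h1
  · rw [hmem, HH, dB_entryB, dA_const] at h2
    exact absurd h2.symm h1
  · rw [hmem, algebraMap_eq_const, HH, dB_const, (isDer_dA K n _).zero] at h2
    exact absurd h2.symm h1

theorem M_le_of_MMC {n c : ℕ} (h : MMC K (RatFun K n) (Fin n) c) : M K n ≤ c := by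
  obtain ⟨m, hm, g, hg⟩ := exists_program_of_MMC h
  have h1 : m ∈ {m : ℕ | ∃ g : Fin m → RatFun K n, IsProgram g ∧ ComputesProduct g} := ⟨g, hg⟩
  exact (Nat.sInf_le h1).trans hm

/-- the standard algorithm -/
theorem RankLe.trivial (F : Type u) [Field F] (ι : Type) [DecidableEq ι] [Fintype ι] :
    RankLe F ι (ι × ι × ι) := by
  refine ⟨fun t i j => if i = t.1 ∧ j = t.2.1 then 1 else 0,
    fun t j k => if j = t.2.1 ∧ k = t.2.2 then 1 else 0,
    fun t k i => if k = t.2.2 ∧ i = t.1 then 1 else 0, fun i j j' k k' i' => ?_⟩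
  rw [Finset.sum_eq_single ((i, j, k) : ι × ι × ι)]
  · by_cases h : j = j' ∧ k = k' ∧ i' = i
    · obtain ⟨rfl, rfl, rfl⟩ := h
      simp
    · rw [if_neg h]
      by_cases h1 : j' = j
      · by_cases h2 : k' = k
        · have h3 : i' ≠ i := fun h3 => h ⟨h1.symm, h2.symm, h3⟩
          simp [h3]
        · simp [h2]
      · simp [h1]
  · rintro ⟨a, b, c⟩ - hne
    by_cases h1 : i = a ∧ j = b
    · by_cases h2 : k = c
      · exfalso
        apply hne
        rw [h1.1, h1.2, h2]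
      · simp [h2]
    · simp [h1]
  · intro h
    exact absurd (Finset.mem_univ _) h

theorem exists_MMC {F : Type v} [Field F] [Algebra K F] (n : ℕ) : ∃ c, MMC K F (Fin n) c := by
  have h := (MMC.unique (K := K) (F := F) Unit).block (RankLe.trivial K (Fin n))
  exact ⟨_, h.of_injective (fun i => (i, ())) (fun i j hij => (Prod.mk.inj hij).1)⟩

theorem M_spec (n : ℕ) : ∃ g : Fin (M K n) → RatFun K n, IsProgram g ∧ ComputesProduct g := by
  obtain ⟨c, hc⟩ := exists_MMC (K := K) (F := RatFun K n) n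
  obtain ⟨m, -, hm⟩ := exists_program_of_MMC hc
  exact Nat.sInf_mem (s := {m : ℕ | ∃ g : Fin m → RatFun K n, IsProgram g ∧ ComputesProduct g})
    ⟨m, hm⟩

theorem sq_le_M (n : ℕ) : n ^ 2 ≤ M K n := by
  obtain ⟨g, -, hg⟩ := M_spec (K := K) n
  exact sq_le_of_computes hg

/-- cost sequence of the recursion -/
def costs (n r : ℕ) : ℕ → ℕ
  | 0 => 1
  | j + 1 => r * costs n r j + 6 * r * n ^ 2 * (n ^ j) ^ 2

theorem MMC_costs {F : Type v} [Field F] [Algebra K F] {n r : ℕ}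
    (h : RankLe K (Fin n) (Fin r)) (j : ℕ) : MMC K F (Fin (n ^ j)) (costs n r j) := by
  induction j with
  | zero =>
    refine (MMC.unique Unit).of_injective (fun _ => ()) (fun a b _ => ?_)
    have ha : (a : ℕ) < 1 := lt_of_lt_of_eq a.2 (pow_zero n)
    have hb : (b : ℕ) < 1 := lt_of_lt_of_eq b.2 (pow_zero n)
    exact Fin.ext (by omega)
  | succ j ih =>
    have h1 := ih.block h
    simp only [Fintype.card_fin] at h1
    have e : Fin (n ^ (j + 1)) ≃ Fin n × Fin (n ^ j) :=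
      (finCongr (pow_succ' n j)).trans finProdFinEquiv.symm
    exact h1.of_injective e e.injective

theorem costs_le {n r : ℕ} {ρ : ℝ} (hr : (r : ℝ) < ρ) (hn : ((n : ℝ)) ^ 2 ≤ ρ) (j : ℕ) :
    (costs n r j : ℝ) ≤ (1 + 6 * r * n ^ 2 / (ρ - r)) * ρ ^ j := by
  have hρr : 0 < ρ - r := sub_pos.2 hr
  have hρ : 0 < ρ := lt_of_le_of_lt (Nat.cast_nonneg r) hr
  induction j with
  | zero =>
    simp only [costs, Nat.cast_one, pow_zero, mul_one]
    have : 0 ≤ 6 * (r : ℝ) * n ^ 2 / (ρ - r) := by positivity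
    linarith
  | succ j ih =>
    have h1 : ((n : ℝ) ^ j) ^ 2 ≤ ρ ^ j := by
      rw [← pow_mul, mul_comm, pow_mul]
      exact pow_le_pow_left₀ (by positivity) hn j
    set D := 6 * (r : ℝ) * n ^ 2 with hD
    have hD0 : 0 ≤ D := by positivity
    have h2 : D * ((n : ℝ) ^ j) ^ 2 ≤ D * ρ ^ j := mul_le_mul_of_nonneg_left h1 hD0
    have h3 : (r : ℝ) * costs n r j ≤ r * ((1 + D / (ρ - r)) * ρ ^ j) :=
      mul_le_mul_of_nonneg_left ih (Nat.cast_nonneg r)
    have h4 : D = (D / (ρ - r)) * (ρ - r) := by field_simp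
    have h5 : 0 ≤ (ρ - r) * ρ ^ j := by positivity
    calc ((costs n r (j + 1) : ℕ) : ℝ) = r * costs n r j + D * ((n : ℝ) ^ j) ^ 2 := by
          simp only [costs]
          push_cast
          ring
      _ ≤ r * ((1 + D / (ρ - r)) * ρ ^ j) + D * ρ ^ j := add_le_add h3 h2
      _ = r * ((1 + D / (ρ - r)) * ρ ^ j) + ((D / (ρ - r)) * (ρ - r)) * ρ ^ j := by rw [← h4]
      _ ≤ r * ((1 + D / (ρ - r)) * ρ ^ j) + ((D / (ρ - r)) * (ρ - r)) * ρ ^ j
          + (ρ - r) * ρ ^ j := le_add_of_nonneg_right h5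
      _ = (1 + D / (ρ - r)) * ρ ^ (j + 1) := by ring

/-- A rank decomposition with `r < n^ω` terms gives `M(N) < N^ω` for all large `N`. -/
theorem eventually_of_rankLe {n r : ℕ} (hn : 2 ≤ n) {ω : ℝ} (hω : 2 < ω)
    (h : RankLe K (Fin n) (Fin r)) (hr : (r : ℝ) < (n : ℝ) ^ ω) :
    ∀ᶠ N : ℕ in atTop, (M K N : ℝ) < (N : ℝ) ^ ω := by
  have hn1 : (1 : ℝ) < n := by exact_mod_cast hn
  have hn0 : (0 : ℝ) < n := by linarith
  have h2 : ((n : ℝ)) ^ 2 < (n : ℝ) ^ ω := by
    have := Real.rpow_lt_rpow_of_exponent_lt hn1 hω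
    rwa [Real.rpow_two] at this
  obtain ⟨ρ, hρ1, hρ2⟩ := exists_between (max_lt hr h2)
  have hρr : (r : ℝ) < ρ := lt_of_le_of_lt (le_max_left _ _) hρ1
  have hρn : ((n : ℝ)) ^ 2 ≤ ρ := le_of_lt (lt_of_le_of_lt (le_max_right _ _) hρ1)
  have hρ1' : 1 < ρ := lt_of_lt_of_le (one_lt_pow₀ hn1 two_ne_zero) hρn
  have hρ0 : 0 < ρ := by linarith
  -- the exponent θ with ρ = n ^ θ
  set θ : ℝ := Real.log ρ / Real.log n with hθ
  have hlogn : 0 < Real.log n := Real.log_pos hn1
  have hθρ : (n : ℝ) ^ θ = ρ := by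
    rw [Real.rpow_def_of_pos hn0, hθ, mul_div_cancel₀ _ hlogn.ne', Real.exp_log hρ0]
  have hθω : θ < ω := by
    rw [hθ, div_lt_iff₀ hlogn]
    have := Real.log_lt_log hρ0 hρ2
    rwa [Real.log_rpow hn0] at this
  have hθ0 : 0 ≤ θ := div_nonneg (Real.log_nonneg hρ1'.le) hlogn.le
  set C : ℝ := (1 + 6 * r * n ^ 2 / (ρ - r)) with hC
  have hC1 : 0 < C := by
    have : 0 < ρ - r := by linarith
    positivity
  have hbound : ∀ N : ℕ, 2 ≤ N → (M K N : ℝ) ≤ (C * ρ) * (N : ℝ) ^ θ := by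
    intro N hN
    obtain ⟨j, hj⟩ : ∃ j, Nat.clog n N = j + 1 := by
      have : 0 < Nat.clog n N := Nat.clog_pos (by omega) (by omega)
      exact ⟨Nat.clog n N - 1, by omega⟩
    have hN1 : N ≤ n ^ (j + 1) := by
      rw [← hj]
      exact Nat.le_pow_clog (by omega) N
    have hN2 : n ^ j < N := by
      have := Nat.pow_pred_clog_lt_self (b := n) (x := N) (by omega) (by omega)
      rwa [hj, Nat.pred_succ] at this
    have hM : M K N ≤ costs n r (j + 1) := by
      apply M_le_of_MMC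
      exact (MMC_costs h (j + 1)).of_injective (Fin.castLE hN1) (Fin.castLE_injective hN1)
    have h3 : ρ ^ j ≤ (N : ℝ) ^ θ := by
      rw [← hθρ, ← Real.rpow_natCast, ← Real.rpow_mul hn0.le, mul_comm, Real.rpow_mul hn0.le,
        Real.rpow_natCast]
      apply Real.rpow_le_rpow (by positivity) _ hθ0
      exact_mod_cast hN2.le
    calc (M K N : ℝ) ≤ costs n r (j + 1) := by exact_mod_cast hM
      _ ≤ C * ρ ^ (j + 1) := costs_le hρr hρn (j + 1)
      _ = C * ρ * ρ ^ j := by ring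
      _ ≤ C * ρ * (N : ℝ) ^ θ := mul_le_mul_of_nonneg_left h3 (by positivity)
  have htend : Tendsto (fun N : ℕ => ((N : ℝ)) ^ (ω - θ)) atTop atTop :=
    (tendsto_rpow_atTop (by linarith)).comp tendsto_natCast_atTop_atTop
  filter_upwards [htend.eventually_gt_atTop (C * ρ), eventually_ge_atTop 2] with N hN1 hN2
  have hN0 : (0 : ℝ) < N := by
    have : 0 < N := by omega
    exact_mod_cast this
  have h4 : 0 < (N : ℝ) ^ θ := Real.rpow_pos_of_pos hN0 _
  calc (M K N : ℝ) ≤ (C * ρ) * (N : ℝ) ^ θ := hbound N hN2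
    _ < (N : ℝ) ^ (ω - θ) * (N : ℝ) ^ θ := mul_lt_mul_of_pos_right hN1 h4
    _ = (N : ℝ) ^ ω := by rw [← Real.rpow_add hN0]; congr 1; ring

/-- If `M(n) < n^ω` for infinitely many `n`, then `M(n) < n^ω` for all large `n`. -/
theorem eventually_M_lt (ω : ℝ) (h : ∃ᶠ n : ℕ in atTop, (M K n : ℝ) < (n : ℝ) ^ ω) :
    ∀ᶠ n : ℕ in atTop, (M K n : ℝ) < (n : ℝ) ^ ω := by
  -- the exponent is larger than two
  have hω : 2 < ω := by
    obtain ⟨n, hn, hn2⟩ := (h.and_eventually (eventually_ge_atTop 2)).exists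
    have hn1 : (1 : ℝ) < n := by exact_mod_cast hn2
    have h1 : ((n : ℝ)) ^ (2 : ℝ) < (n : ℝ) ^ ω := by
      rw [Real.rpow_two]
      refine lt_of_le_of_lt ?_ hn
      exact_mod_cast sq_le_M (K := K) n
    exact (Real.rpow_lt_rpow_left_iff hn1).1 h1
  -- choose `n` large
  have htend : Tendsto (fun N : ℕ => ((N : ℝ)) ^ (ω - 2)) atTop atTop :=
    (tendsto_rpow_atTop (by linarith)).comp tendsto_natCast_atTop_atTop
  obtain ⟨n, hn, hn2, hn3⟩ := (h.and_eventually ((eventually_ge_atTop 2).and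
    (htend.eventually_ge_atTop 2))).exists
  have hn1 : (1 : ℝ) < n := by exact_mod_cast hn2
  have hn0 : (0 : ℝ) < n := by linarith
  have hsq : 2 * (n : ℝ) ^ 2 ≤ (n : ℝ) ^ ω := by
    have : (n : ℝ) ^ ω = (n : ℝ) ^ (ω - 2) * (n : ℝ) ^ 2 := by
      rw [← Real.rpow_two, ← Real.rpow_add hn0]
      congr 1
      ring
    rw [this]
    exact mul_le_mul_of_nonneg_right hn3 (by positivity)
  obtain ⟨g, hg, hgc⟩ := M_spec (K := K) n
  obtain ⟨r, hr, hrank⟩ := exists_rank_of_program hg hgc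
  have hrω : (r : ℝ) < (n : ℝ) ^ ω := by
    have : (3 : ℝ) * r ≤ 2 * (M K n : ℝ) + 2 * (n : ℝ) ^ 2 := by exact_mod_cast hr
    linarith
  obtain ⟨L, _, _, hfin, hL⟩ := hrank.exists_finite_ext (K := K)
  set d := Module.finrank K L with hd
  -- a large Kronecker power
  have hpos : (0 : ℝ) < (n : ℝ) ^ ω := Real.rpow_pos_of_pos hn0 _
  have hq0 : 0 ≤ (r : ℝ) / (n : ℝ) ^ ω := by positivity
  have hq1 : (r : ℝ) / (n : ℝ) ^ ω < 1 := (div_lt_one hpos).2 hrω
  have hlim : Tendsto (fun k : ℕ => ((r : ℝ) / (n : ℝ) ^ ω) ^ k * (d : ℝ) ^ 3) atTop (nhds 0) := by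
    have := (tendsto_pow_atTop_nhds_zero_of_lt_one hq0 hq1).mul_const ((d : ℝ) ^ 3)
    simpa using this
  obtain ⟨k, hk1, hk2⟩ := ((hlim.eventually (gt_mem_nhds one_pos)).and
    (eventually_ge_atTop 1)).exists
  have hK := (hL.pow k).descend (K := K)
  have e1 : Fin (n ^ k) ≃ (Fin k → Fin n) := finFunctionFinEquiv.symm
  have e2 : Fin (r ^ k * d ^ 3) ≃ ((Fin k → Fin r) × (Fin d × Fin d × Fin d)) :=
    (Fintype.equivFinOfCardEq (by
      simp only [Fintype.card_prod, Fintype.card_fun, Fintype.card_fin]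
      ring)).symm
  have hK' := hK.congr e1 e2
  refine eventually_of_rankLe (n := n ^ k) (r := r ^ k * d ^ 3) ?_ hω hK' ?_
  · calc 2 ≤ n := hn2
      _ = n ^ 1 := (pow_one n).symm
      _ ≤ n ^ k := Nat.pow_le_pow_right (by omega) hk2
  · push_cast
    have h5 : ((n : ℝ) ^ k) ^ ω = ((n : ℝ) ^ ω) ^ k := by
      rw [← Real.rpow_natCast, ← Real.rpow_natCast, ← Real.rpow_mul hn0.le,
        ← Real.rpow_mul hn0.le, mul_comm]
    rw [h5]
    rw [div_pow, div_mul_eq_mul_div, div_lt_one (by positivity)] at hk1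
    exact hk1

end

end H563R2.MM
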